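import Pool.Agent.Lib.MP_d55432_al.SIX.Iface

/-!
# RANK2: density and conjugacy of the non-nilpotent matrices of rank 2
-/

namespace Pool.Agent.Lib.MP_d55432_al.SIX

open Matrix LieAlgebra

attribute [local instance 100] LieRing.ofAssociativeRing

namespace Rank2

variable {K : Type*} [Field K]

theorem sharp_wedge (u v : Fin 6 → K) : sharp (wedge u v) = 0 := by
  apply Subtype.ext
  change sharpM (wedgeM u v) = 0
  ext i j
  fin_cases i <;> fin_cases j <;>
    simp [sharpM, pf4, wedgeM, vecMulVec_apply] <;> ring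

/-- Functions in `PolyOn` are polynomial along quadratic curves. -/
theorem exists_poly {g : L6 K → K} (hg : g ∈ PolyOn K (L6 K)) (a b c : L6 K) :
    ∃ P : Polynomial K, ∀ t : K, g (a + t • b + t ^ 2 • c) = P.eval t := by
  rw [PolyOn] at hg
  induction hg using Algebra.adjoin_induction with
  | mem g hg =>
    obtain ⟨ψ, rfl⟩ := hg
    refine ⟨Polynomial.C (ψ a) + Polynomial.X * Polynomial.C (ψ b) +
      Polynomial.X ^ 2 * Polynomial.C (ψ c), fun t => ?_⟩
    simp only [map_add, map_smul, smul_eq_mul, Polynomial.eval_add, Polynomial.eval_mul,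
      Polynomial.eval_pow, Polynomial.eval_X, Polynomial.eval_C]
  | algebraMap r =>
    refine ⟨Polynomial.C r, fun t => ?_⟩
    simp
  | add f g _ _ hf hg =>
    obtain ⟨P, hP⟩ := hf
    obtain ⟨Q, hQ⟩ := hg
    refine ⟨P + Q, fun t => ?_⟩
    rw [Polynomial.eval_add, ← hP, ← hQ]
    rfl
  | mul f g _ _ hf hg =>
    obtain ⟨P, hP⟩ := hf
    obtain ⟨Q, hQ⟩ := hg
    refine ⟨P * Q, fun t => ?_⟩
    rw [Polynomial.eval_mul, ← hP, ← hQ]
    rfl

/-- First and second basis vectors. -/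
def e0 : Fin 6 → K := ![1, 0, 0, 0, 0, 0]

/-- The second basis vector. -/
def e1 : Fin 6 → K := ![0, 1, 0, 0, 0, 0]

theorem wedge_curve (u v : Fin 6 → K) (t : K) :
    wedge (u + t • e0) (v + t • e1) =
      wedge u v + t • (wedge u e1 + wedge e0 v) + t ^ 2 • wedge (e0 : Fin 6 → K) e1 := by
  apply Subtype.ext
  change wedgeM (u + t • e0) (v + t • e1) =
    wedgeM u v + t • (wedgeM u e1 + wedgeM e0 v) + t ^ 2 • wedgeM (e0 : Fin 6 → K) e1
  ext i j
  simp only [wedgeM, vecMulVec_apply, Matrix.sub_apply, Matrix.add_apply, Matrix.smul_apply,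
    Pi.add_apply, Pi.smul_apply, smul_eq_mul]
  ring

/-- The polynomial `s1` along the curve. -/
noncomputable def Q (u v : Fin 6 → K) : Polynomial K :=
  Polynomial.X ^ 4 + Polynomial.C (2 * v 1 + 2 * u 0) * Polynomial.X ^ 3 +
    Polynomial.C ((∑ i, u i ^ 2) + (∑ i, v i ^ 2) + 4 * u 0 * v 1 - (v 0 + u 1) ^ 2) *
      Polynomial.X ^ 2 +
    Polynomial.C (2 * (∑ i, u i ^ 2) * v 1 + 2 * (∑ i, v i ^ 2) * u 0 -
      2 * (∑ i, u i * v i) * (v 0 + u 1)) * Polynomial.X +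
    Polynomial.C ((∑ i, u i ^ 2) * (∑ i, v i ^ 2) - (∑ i, u i * v i) ^ 2)

theorem s1_curve (u v : Fin 6 → K) (t : K) :
    s1 (wedge (u + t • e0) (v + t • e1)).1 = (Q u v).eval t := by
  change s1 (wedgeM (u + t • e0) (v + t • e1)) = _
  simp only [Q, s1, wedgeM, vecMulVec_apply, Matrix.sub_apply, Pi.add_apply, Pi.smul_apply,
    smul_eq_mul, Polynomial.eval_add, Polynomial.eval_mul, Polynomial.eval_pow,
    Polynomial.eval_X, Polynomial.eval_C, Fin.sum_univ_six, e0, e1]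
  simp [Matrix.cons_val_zero, Matrix.cons_val_one]
  ring

theorem coeff_four (a b c d : K) : (Polynomial.X ^ 4 + Polynomial.C a * Polynomial.X ^ 3 +
    Polynomial.C b * Polynomial.X ^ 2 + Polynomial.C c * Polynomial.X +
    Polynomial.C d : Polynomial K).coeff 4 = 1 := by
  simp [Polynomial.coeff_X_pow]

theorem Q_ne_zero (u v : Fin 6 → K) : Q u v ≠ 0 := by
  intro h
  have h4 : (Q u v).coeff 4 = 1 := coeff_four _ _ _ _
  rw [h, Polynomial.coeff_zero] at h4
  exact zero_ne_one h4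

theorem dense [CharZero K] {g : L6 K → K} (hg : g ∈ PolyOn K (L6 K))
    (h : ∀ x : L6 K, sharp x = 0 → s1 x.1 ≠ 0 → g x = 0) (u v : Fin 6 → K) :
    g (wedge u v) = 0 := by
  obtain ⟨P, hP⟩ := exists_poly hg (wedge u v) (wedge u e1 + wedge e0 v)
    (wedge (e0 : Fin 6 → K) e1)
  have hPQ : P * Q u v = 0 := by
    apply Polynomial.funext
    intro t
    rw [Polynomial.eval_mul, Polynomial.eval_zero, ← hP, ← wedge_curve, ← s1_curve]
    by_cases h0 : s1 (wedge (u + t • e0) (v + t • e1)).1 = 0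
    · rw [h0, mul_zero]
    · rw [h _ (sharp_wedge _ _) h0, zero_mul]
  have hP0 : P = 0 := by
    rcases mul_eq_zero.1 hPQ with h1 | h1
    · exact h1
    · exact absurd h1 (Q_ne_zero u v)
  have h0 := hP 0
  rw [hP0, Polynomial.eval_zero, zero_smul, add_zero, zero_pow two_ne_zero, zero_smul,
    add_zero] at h0
  exact h0

theorem exists_conj (hO : ORB_S K) (Θ : L6 K ≃ₗ⁅K⁆ L4 K) (κ : K) (hΘ : IsTheta Θ κ)
    (x : L6 K) (hx : sharp x = 0) (c : K) (hc : c = -(s1 x.1) / 4) (hc0 : c ≠ 0) :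
    ∃ g h : M4 K, g * h = 1 ∧ h * g = 1 ∧ (Θ x).1 = g * CC c * h := by
  have hsq : (Θ x).1 * (Θ x).1 = c • (1 : M4 K) := by
    rw [hΘ.2 x, hx, map_zero, hc]
    change _ + κ • (0 : M4 K) = _
    rw [smul_zero, add_zero]
  have htr : (Θ x).1.trace = 0 := (mem_sl _).1 (Θ x).2
  rcases hO _ c htr hsq with h | ⟨g, h, hgh, hhg, h1 | h1⟩
  · exfalso
    rw [h, Matrix.mul_zero] at hsq
    have h2 := congrFun (congrFun hsq 0) 0
    simp at h2
    exact hc0 h2.symm
  · exact ⟨g, h, hgh, hhg, h1⟩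
  · exact absurd h1.1 hc0

theorem conjugate [CharZero K] (hT : THETA_S K) (hO : ORB_S K) (x y : L6 K) (hx : sharp x = 0)
    (hy : sharp y = 0) (hxy : s1 x.1 = s1 y.1) (hx0 : s1 x.1 ≠ 0) :
    ∃ φ : L6 K ≃ₗ⁅K⁆ L6 K, φ x = y := by
  obtain ⟨Θ, κ, hΘ⟩ := hT
  have hc0 : -(s1 x.1) / 4 ≠ 0 := div_ne_zero (neg_ne_zero.2 hx0) (by norm_num)
  obtain ⟨g, h, hgh, hhg, hX⟩ := exists_conj hO Θ κ hΘ x hx _ rfl hc0
  obtain ⟨g', h', hgh', hhg', hY⟩ := exists_conj hO Θ κ hΘ y hy (-(s1 x.1) / 4) (by rw [hxy]) hc0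
  have hGH : (g' * h) * (g * h') = 1 := by
    calc (g' * h) * (g * h') = g' * (h * g) * h' := by simp only [Matrix.mul_assoc]
      _ = 1 := by rw [hhg, Matrix.mul_one, hgh']
  have hHG : (g * h') * (g' * h) = 1 := by
    calc (g * h') * (g' * h) = g * (h' * g') * h := by simp only [Matrix.mul_assoc]
      _ = 1 := by rw [hhg', Matrix.mul_one, hgh]
  refine ⟨(Θ.trans (conj4 (g' * h) (g * h') hGH hHG)).trans Θ.symm, ?_⟩
  change Θ.symm (conj4 (g' * h) (g * h') hGH hHG (Θ x)) = y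
  rw [LieEquiv.symm_apply_eq]
  apply Subtype.ext
  rw [conj4_coe, hX, hY]
  calc g' * h * (g * CC (-s1 x.1 / 4) * h) * (g * h')
      = g' * (h * g) * CC (-s1 x.1 / 4) * (h * g) * h' := by simp only [Matrix.mul_assoc]
    _ = _ := by rw [hhg, Matrix.mul_one, Matrix.mul_one]

end Rank2

theorem rank2 (K : Type*) [Field K] [CharZero K] (hT : THETA_S K) (hO : ORB_S K) :
    RANK2_S K :=
  ⟨fun _ hg h u v => Rank2.dense hg h u v,
    fun x y hx hy hxy hx0 => Rank2.conjugate hT hO x y hx hy hxy hx0⟩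

end Pool.Agent.Lib.MP_d55432_al.SIX
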